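import Mathlib

/-!
Sequences whose Hankel forms satisfy the Cauchy-Schwarz inequalities.
-/

set_option autoImplicit false

namespace Pool.Agent.Q93.LF

/-- The inequalities used below. -/
structure CS (a : ℕ → ℝ) : Prop where
  nonneg : ∀ i, 0 ≤ a (2 * i)
  ineq : ∀ i j, a (i + j) ^ 2 ≤ a (2 * i) * a (2 * j)

variable {a : ℕ → ℝ}

lemma CS.step (h : CS a) (m : ℕ) : a (2 * (m + 1)) ^ 2 ≤ a (2 * m) * a (2 * (m + 2)) := by
  have := h.ineq m (m + 2)
  rwa [show m + (m + 2) = 2 * (m + 1) from by ring] at this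

/-- if one even term vanishes, all terms from the first on vanish -/
lemma CS.zero (h : CS a) : ∀ m : ℕ, a (2 * m) = 0 → ∀ k : ℕ, 1 ≤ k → a k = 0 := by
  intro m
  induction m using Nat.strong_induction_on with
  | _ m ih =>
    intro h0 k hk
    have key : ∀ j, a (m + j) = 0 := by
      intro j
      have h1 := h.ineq m j
      rw [h0, zero_mul] at h1
      exact pow_eq_zero_iff (two_ne_zero) |>.1 (le_antisymm h1 (sq_nonneg _))
    rcases Nat.lt_or_ge m 2 with hm | hm
    · have hmk : m ≤ k := by omega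
      have := key (k - m)
      rwa [show m + (k - m) = k from by omega] at this
    · -- `m ≥ 2`: descend to `(m + 1) / 2`
      have hlt : (m + 1) / 2 < m := by omega
      have hge : m ≤ 2 * ((m + 1) / 2) := by omega
      have h2 : a (2 * ((m + 1) / 2)) = 0 := by
        have := key (2 * ((m + 1) / 2) - m)
        rwa [show m + (2 * ((m + 1) / 2) - m) = 2 * ((m + 1) / 2) from by omega] at this
      exact ih _ hlt h2 k hk

/-- log convex positive sequences -/
lemma logconvex {b : ℕ → ℝ} (hb : ∀ i, 0 < b i) (h : ∀ i, b (i + 1) ^ 2 ≤ b i * b (i + 2))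
    {j m : ℕ} (hj : j ≤ m) : b j ^ m ≤ b 0 ^ (m - j) * b m ^ j := by
  set r : ℕ → ℝ := fun i => b (i + 1) / b i with hr
  have hrpos : ∀ i, 0 < r i := fun i => div_pos (hb _) (hb _)
  have hmono : Monotone r := by
    refine monotone_nat_of_le_succ (fun i => ?_)
    change b (i + 1) / b i ≤ b (i + 2) / b (i + 1)
    rw [div_le_div_iff₀ (hb _) (hb _)]
    nlinarith [h i]
  have hup : ∀ i, i ≤ j → b i ≤ b 0 * r j ^ i := by
    intro i
    induction i with
    | zero => intro _; simp
    | succ i ih =>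
      intro hi
      have h1 := ih (by omega)
      have h2 : b (i + 1) = b i * r i := by
        change b (i + 1) = b i * (b (i + 1) / b i)
        field_simp [(hb i).ne']
      rw [h2, pow_succ]
      calc b i * r i ≤ (b 0 * r j ^ i) * r j :=
            mul_le_mul h1 (hmono (by omega)) (hrpos i).le
              (mul_nonneg (hb 0).le (pow_nonneg (hrpos j).le _))
        _ = _ := by ring
  have hlow : ∀ i, b j * r j ^ i ≤ b (j + i) := by
    intro i
    induction i with
    | zero => simp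
    | succ i ih =>
      have h2 : b (j + i + 1) = b (j + i) * r (j + i) := by
        change b (j + i + 1) = b (j + i) * (b (j + i + 1) / b (j + i))
        field_simp [(hb (j + i)).ne']
      rw [show j + (i + 1) = j + i + 1 from by ring, h2, pow_succ]
      calc b j * (r j ^ i * r j) = (b j * r j ^ i) * r j := by ring
        _ ≤ b (j + i) * r (j + i) :=
            mul_le_mul ih (hmono (by omega)) (hrpos j).le (hb _).le
  have h1 := hup j le_rfl
  have h2 := hlow (m - j)
  rw [show j + (m - j) = m from by omega] at h2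
  have h3 : b j ^ (m - j) ≤ b 0 ^ (m - j) * r j ^ (j * (m - j)) := by
    calc b j ^ (m - j) ≤ (b 0 * r j ^ j) ^ (m - j) := pow_le_pow_left₀ (hb j).le h1 _
      _ = _ := by rw [mul_pow, ← pow_mul]
  have h4 : b j ^ j * r j ^ (j * (m - j)) ≤ b m ^ j := by
    calc b j ^ j * r j ^ (j * (m - j)) = (b j * r j ^ (m - j)) ^ j := by
          rw [mul_pow, ← pow_mul, mul_comm (m - j) j]
      _ ≤ b m ^ j := pow_le_pow_left₀ (mul_nonneg (hb j).le (pow_nonneg (hrpos j).le _)) h2 _
  calc b j ^ m = b j ^ (m - j) * b j ^ j := by rw [← pow_add]; congr 1; omega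
    _ ≤ (b 0 ^ (m - j) * r j ^ (j * (m - j))) * b j ^ j :=
        mul_le_mul_of_nonneg_right h3 (pow_nonneg (hb j).le _)
    _ = b 0 ^ (m - j) * (b j ^ j * r j ^ (j * (m - j))) := by ring
    _ ≤ b 0 ^ (m - j) * b m ^ j := mul_le_mul_of_nonneg_left h4 (pow_nonneg (hb 0).le _)

/-- **Lyapunov's inequality** -/
lemma CS.lyapunov (h : CS a) (m j : ℕ) (hj : j ≤ 2 * m) :
    a j ^ (2 * m) ≤ a 0 ^ (2 * m - j) * a (2 * m) ^ j := by
  have h00 : (0 : ℝ) ≤ a 0 := by simpa using h.nonneg 0
  rcases Nat.eq_zero_or_pos j with rfl | hjpos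
  · simp
  by_cases hz : ∃ i, a (2 * i) = 0
  · obtain ⟨i, hi⟩ := hz
    rw [h.zero i hi j hjpos, zero_pow (by omega)]
    exact mul_nonneg (pow_nonneg h00 _) (pow_nonneg (h.nonneg m) _)
  push Not at hz
  have hb : ∀ i, 0 < a (2 * i) := fun i => lt_of_le_of_ne (h.nonneg i) (Ne.symm (hz i))
  have hlc : ∀ {i l : ℕ}, i ≤ l → a (2 * i) ^ l ≤ a 0 ^ (l - i) * a (2 * l) ^ i := by
    intro i l hil
    exact logconvex (b := fun i => a (2 * i)) hb (fun i => h.step i) hil
  have h0 : 0 < a 0 := by simpa using hb 0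
  rcases le_or_gt j m with hjm | hjm
  · have h1 : a j ^ 2 ≤ a 0 * a (2 * j) := by simpa using h.ineq 0 j
    calc a j ^ (2 * m) = (a j ^ 2) ^ m := by rw [pow_mul]
      _ ≤ (a 0 * a (2 * j)) ^ m := pow_le_pow_left₀ (sq_nonneg _) h1 _
      _ = a 0 ^ m * a (2 * j) ^ m := mul_pow _ _ _
      _ ≤ a 0 ^ m * (a 0 ^ (m - j) * a (2 * m) ^ j) :=
          mul_le_mul_of_nonneg_left (hlc hjm) (pow_nonneg h0.le _)
      _ = a 0 ^ (2 * m - j) * a (2 * m) ^ j := by
          rw [← mul_assoc, ← pow_add]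
          congr 2
          omega
  · have h1 : a j ^ 2 ≤ a (2 * (j - m)) * a (2 * m) := by
      have := h.ineq (j - m) m
      rwa [show j - m + m = j from by omega] at this
    calc a j ^ (2 * m) = (a j ^ 2) ^ m := by rw [pow_mul]
      _ ≤ (a (2 * (j - m)) * a (2 * m)) ^ m := pow_le_pow_left₀ (sq_nonneg _) h1 _
      _ = a (2 * (j - m)) ^ m * a (2 * m) ^ m := mul_pow _ _ _
      _ ≤ (a 0 ^ (m - (j - m)) * a (2 * m) ^ (j - m)) * a (2 * m) ^ m :=
          mul_le_mul_of_nonneg_right (hlc (by omega)) (pow_nonneg (hb m).le _)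
      _ = a 0 ^ (2 * m - j) * a (2 * m) ^ j := by
          rw [mul_assoc, ← pow_add]
          congr 2 <;> omega

end Pool.Agent.Q93.LF
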