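import Pool.Agent.Q93.LF.Glue
import Pool.Agent.Q93.LF.Hankel

/-!
The cut inequality and the Hankel forms of a layered family.
-/

set_option autoImplicit false

namespace Pool.Agent.Q93.LF

open Polynomial Pool.Agent.H207R2.BL

/-- the two sides of a glued graph can be exchanged -/
def swapEquiv (V V' : Type) (n : ℕ) : (V ⊕ V') ⊕ Fin n ≃ (V' ⊕ V) ⊕ Fin n :=
  Equiv.sumCongr (Equiv.sumComm V V') (Equiv.refl _)

lemma glue_swap {V V' : Type} {n : ℕ} (N : SimpleGraph (V ⊕ Fin n)) (M : SimpleGraph (V' ⊕ Fin n)) :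
    (glue N M).map (swapEquiv V V' n) = glue M N := by
  unfold glue
  simp only [map_sup', SimpleGraph.map_map]
  have h1 : ((swapEquiv V V' n : _ → (V' ⊕ V) ⊕ Fin n) ∘ Sum.map Sum.inl id) =
      Sum.map Sum.inr id := by
    funext x
    rcases x with v | i <;> rfl
  have h2 : ((swapEquiv V V' n : (V ⊕ V') ⊕ Fin n → (V' ⊕ V) ⊕ Fin n) ∘ Sum.map Sum.inr id) =
      Sum.map Sum.inl id := by
    funext x
    rcases x with v | i <;> rfl
  rw [h1, h2, sup_comm]

lemma chrom_swap {V V' : Type} {n : ℕ} {N : SimpleGraph (V ⊕ Fin n)}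
    {M : SimpleGraph (V' ⊕ Fin n)} {p : ℝ[X]} (hp : IsChrom (glue N M) p) :
    IsChrom (glue M N) p := by
  have e : (glue N M) ≃g glue M N := by
    rw [← glue_swap N M]
    exact SimpleGraph.Iso.map (swapEquiv V V' n) _
  exact hp.of_iso e

lemma sq_le_of_form {A B C : ℝ} (h : ∀ x y : ℝ, 0 ≤ x * x * A + x * y * B + y * x * B + y * y * C) :
    B ^ 2 ≤ A * C := by
  have hA : 0 ≤ A := by have := h 1 0; linarith
  have hC : 0 ≤ C := by have := h 0 1; linarith
  rcases hC.eq_or_lt with h0 | h0
  · -- `C = 0`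
    subst h0
    have hB : B = 0 := by
      by_contra hB
      have h1 := h (1) (-(A + 1) / (2 * B))
      have e : (1 : ℝ) * 1 * A + 1 * (-(A + 1) / (2 * B)) * B + (-(A + 1) / (2 * B)) * 1 * B +
          (-(A + 1) / (2 * B)) * (-(A + 1) / (2 * B)) * 0 = -1 := by
        field_simp
        ring
      linarith
    simp [hB]
  · have h1 := h C (-B)
    nlinarith

/-- **the cut inequality** -/
theorem cut {V V' : Type} [Finite V] [Finite V'] {n : ℕ} (N : SimpleGraph (V ⊕ Fin n))
    (M : SimpleGraph (V' ⊕ Fin n)) (hN : Crossless N) (hM : Crossless M) (p r s : ℝ[X])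
    (hp : IsChrom (glue N M) p) (hr : IsChrom (glue N N) r) (hs : IsChrom (glue M M) s)
    (q : ℝ) (hq : 4 ≤ q) : 0 ≤ r.eval q ∧ p.eval q ^ 2 ≤ r.eval q * s.eval q := by
  have key : ∀ x y : ℝ, 0 ≤ x * x * r.eval q + x * y * p.eval q + y * x * p.eval q +
      y * y * s.eval q := by
    intro x y
    let VV : Bool → Type := fun b => if b then V else V'
    have hfin : ∀ b, Finite (VV b) := by
      intro b
      cases b
      · exact inferInstanceAs (Finite V')
      · exact inferInstanceAs (Finite V)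
    let NN : ∀ b, SimpleGraph (VV b ⊕ Fin n) := fun b =>
      match b with
      | true => N
      | false => M
    have hNN : ∀ b, Crossless (NN b) := by
      intro b
      cases b
      · exact hM
      · exact hN
    let P : Bool → Bool → ℝ[X] := fun a b =>
      match a, b with
      | true, true => r
      | true, false => p
      | false, true => p
      | false, false => s
    have hP : ∀ a b, IsChrom (glue (NN a) (NN b)) (P a b) := by
      intro a b
      cases a <;> cases b
      · exact hs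
      · exact chrom_swap hp
      · exact hp
      · exact hr
    have := psd VV NN hNN P hP q hq (fun b => if b then x else y)
    simp only [Fintype.sum_bool, P, if_true, Bool.false_eq_true, if_false] at this
    linarith
  refine ⟨?_, sq_le_of_form key⟩
  have := key 1 0
  linarith

/-- The Hankel forms. -/
theorem hankel {W V : Type} [Finite W] [Finite V] {n : ℕ}
    (L : SimpleGraph ((W ⊕ Fin n) ⊕ Fin n)) (C : SimpleGraph (V ⊕ Fin n)) (hL : Symmetric L)
    (hT : ∀ k, Crossless (tower L C k)) (p : ℕ → ℝ[X]) (hp : ∀ k, IsChrom (capped L C k) (p k))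
    (q : ℝ) (hq : 4 ≤ q) (K : ℕ) (c : Fin K → ℝ) :
    0 ≤ ∑ i, ∑ j, c i * c j * (p (i + j)).eval q :=
  psd (fun i : Fin K => Int W V n i) (fun i => tower L C i) (fun i => hT i)
    (fun i j => p (i + j)) (fun i j => chrom_towers hL C i j _ (hp _)) q hq c

theorem cs {W V : Type} [Finite W] [Finite V] {n : ℕ}
    (L : SimpleGraph ((W ⊕ Fin n) ⊕ Fin n)) (C : SimpleGraph (V ⊕ Fin n)) (hL : Symmetric L)
    (hT : ∀ k, Crossless (tower L C k)) (p : ℕ → ℝ[X]) (hp : ∀ k, IsChrom (capped L C k) (p k))
    (q : ℝ) (hq : 4 ≤ q) : CS (fun k => (p k).eval q) := by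
  have h : ∀ i j, 0 ≤ (p (2 * i)).eval q ∧
      (p (i + j)).eval q ^ 2 ≤ (p (2 * i)).eval q * (p (2 * j)).eval q := by
    intro i j
    refine cut (tower L C i) (tower L C j) (hT i) (hT j) _ _ _
      (chrom_towers hL C i j _ (hp _)) ?_ ?_ q hq
    · rw [two_mul]
      exact chrom_towers hL C i i _ (hp _)
    · rw [two_mul]
      exact chrom_towers hL C j j _ (hp _)
  exact ⟨fun i => (h i i).1, fun i j => (h i j).2⟩

end Pool.Agent.Q93.LF
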