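import Pool.Agent.H207R2.BL.Mirror
import Pool.Agent.H207R2.BL.Minor

/-!
Stacking layers on a half graph; the glued graph depends only on the total number of layers.
-/

set_option autoImplicit false

namespace Pool.Agent.Q93.LF

open Polynomial Pool.Agent.H207R2.BL

/-- the place of the layer `L` (interior `W`, top boundary `inl (inr i)`, bottom boundary `inr i`)
in the stack -/
def lay (W V : Type) (n : ℕ) : (W ⊕ Fin n) ⊕ Fin n → (W ⊕ V ⊕ Fin n) ⊕ Fin n :=
  Sum.map (Sum.map id Sum.inr) id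

/-- the place of the half graph `N` in the stack: its boundary becomes the top boundary of the
layer -/
def low (W V : Type) (n : ℕ) : V ⊕ Fin n → (W ⊕ V ⊕ Fin n) ⊕ Fin n :=
  fun x => Sum.inl (Sum.inr x)

/-- the layer `L` with the half graph `N` on top of it -/
def stack {W V : Type} {n : ℕ} (L : SimpleGraph ((W ⊕ Fin n) ⊕ Fin n)) (N : SimpleGraph (V ⊕ Fin n)) :
    SimpleGraph ((W ⊕ V ⊕ Fin n) ⊕ Fin n) :=
  SimpleGraph.map (lay W V n) L ⊔ SimpleGraph.map (low W V n) N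

/-- exchange of top and bottom, combined with a permutation of the interior vertices -/
def flip {W : Type} {n : ℕ} (τ : W ≃ W) : (W ⊕ Fin n) ⊕ Fin n ≃ (W ⊕ Fin n) ⊕ Fin n where
  toFun := Sum.elim (Sum.elim (fun w => Sum.inl (Sum.inl (τ w))) Sum.inr)
    (fun i => Sum.inl (Sum.inr i))
  invFun := Sum.elim (Sum.elim (fun w => Sum.inl (Sum.inl (τ.symm w))) Sum.inr)
    (fun i => Sum.inl (Sum.inr i))
  left_inv := by rintro ((w | i) | i) <;> simp
  right_inv := by rintro ((w | i) | i) <;> simp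

/-- the layer is mirror symmetric -/
def Symmetric {W : Type} {n : ℕ} (L : SimpleGraph ((W ⊕ Fin n) ⊕ Fin n)) : Prop :=
  ∃ τ : W ≃ W, ∀ x y, L.Adj x y ↔ L.Adj (flip τ x) (flip τ y)

lemma map_sup' {V W : Type} (f : V → W) (G H : SimpleGraph V) :
    (G ⊔ H).map f = G.map f ⊔ H.map f := by
  ext a b
  rw [SimpleGraph.sup_adj, SimpleGraph.map_adj', SimpleGraph.map_adj', SimpleGraph.map_adj']
  constructor
  · rintro ⟨hne, u, v, h | h, hu, hv⟩
    · exact Or.inl ⟨hne, u, v, h, hu, hv⟩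
    · exact Or.inr ⟨hne, u, v, h, hu, hv⟩
  · rintro (⟨hne, u, v, h, hu, hv⟩ | ⟨hne, u, v, h, hu, hv⟩)
    · exact ⟨hne, u, v, Or.inl h, hu, hv⟩
    · exact ⟨hne, u, v, Or.inr h, hu, hv⟩

lemma map_flip {W : Type} {n : ℕ} {L : SimpleGraph ((W ⊕ Fin n) ⊕ Fin n)} {τ : W ≃ W}
    (h : ∀ x y, L.Adj x y ↔ L.Adj (flip τ x) (flip τ y)) : L.map (flip τ) = L := by
  ext a b
  rw [SimpleGraph.map_adj']
  constructor
  · rintro ⟨-, u, v, huv, rfl, rfl⟩
    exact (h u v).1 huv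
  · intro hab
    refine ⟨hab.ne, (flip τ).symm a, (flip τ).symm b, ?_, by simp, by simp⟩
    rw [h]
    simpa using hab

/-- the exchange of the two sides -/
def mv {W V V' : Type} {n : ℕ} (τ : W ≃ W) :
    ((W ⊕ V ⊕ Fin n) ⊕ V') ⊕ Fin n ≃ (V ⊕ (W ⊕ V' ⊕ Fin n)) ⊕ Fin n where
  toFun := Sum.elim (Sum.elim
    (Sum.elim (fun w => Sum.inl (Sum.inr (Sum.inl (τ w))))
      (Sum.elim (fun v => Sum.inl (Sum.inl v)) Sum.inr))
    (fun v' => Sum.inl (Sum.inr (Sum.inr (Sum.inl v')))))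
    (fun i => Sum.inl (Sum.inr (Sum.inr (Sum.inr i))))
  invFun := Sum.elim (Sum.elim
    (fun v => Sum.inl (Sum.inl (Sum.inr (Sum.inl v))))
    (Sum.elim (fun w => Sum.inl (Sum.inl (Sum.inl (τ.symm w))))
      (Sum.elim (fun v' => Sum.inl (Sum.inr v')) Sum.inr)))
    (fun i => Sum.inl (Sum.inl (Sum.inr (Sum.inr i))))
  left_inv := by rintro (((w | v | i) | v') | i) <;> simp
  right_inv := by rintro ((v | w | v' | i) | i) <;> simp

lemma glue_eq {W V V' : Type} {n : ℕ} {L : SimpleGraph ((W ⊕ Fin n) ⊕ Fin n)} {τ : W ≃ W}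
    (h : ∀ x y, L.Adj x y ↔ L.Adj (flip τ x) (flip τ y))
    (N : SimpleGraph (V ⊕ Fin n)) (M : SimpleGraph (V' ⊕ Fin n)) :
    (glue (stack L N) M).map (mv τ) = glue N (stack L M) := by
  unfold glue stack
  simp only [map_sup', SimpleGraph.map_map, Function.comp_assoc]
  have hL : L.map ((mv τ : _ → (V ⊕ (W ⊕ V' ⊕ Fin n)) ⊕ Fin n) ∘
      (Sum.map Sum.inl id ∘ lay W V n)) = L.map ((Sum.map Sum.inr id ∘ lay W V' n)) := by
    have e : ((mv τ : _ → (V ⊕ (W ⊕ V' ⊕ Fin n)) ⊕ Fin n) ∘ (Sum.map Sum.inl id ∘ lay W V n)) =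
        (Sum.map Sum.inr id ∘ lay W V' n) ∘ (flip τ) := by
      funext x
      rcases x with (w | i) | i <;> rfl
    rw [e, ← SimpleGraph.map_map, map_flip h]
  have hN : ((mv τ : _ → (V ⊕ (W ⊕ V' ⊕ Fin n)) ⊕ Fin n) ∘ (Sum.map Sum.inl id ∘ low W V n)) =
      Sum.map Sum.inl id := by
    funext x
    rcases x with v | i <;> rfl
  have hM : ((mv τ : ((W ⊕ V ⊕ Fin n) ⊕ V') ⊕ Fin n → (V ⊕ (W ⊕ V' ⊕ Fin n)) ⊕ Fin n) ∘
      Sum.map Sum.inr id) = Sum.map Sum.inr id ∘ low W V' n := by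
    funext x
    rcases x with v | i <;> rfl
  rw [hL, hN, hM]
  ext a b
  simp only [SimpleGraph.sup_adj]
  tauto

/-- **the layer can be moved to the other side** -/
theorem chrom_move {W V V' : Type} {n : ℕ} {L : SimpleGraph ((W ⊕ Fin n) ⊕ Fin n)}
    (h : Symmetric L) (N : SimpleGraph (V ⊕ Fin n)) (M : SimpleGraph (V' ⊕ Fin n)) (p : ℝ[X]) :
    IsChrom (glue (stack L N) M) p ↔ IsChrom (glue N (stack L M)) p := by
  obtain ⟨τ, hτ⟩ := h
  have e : (glue (stack L N) M) ≃g glue N (stack L M) := by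
    rw [← glue_eq hτ N M]
    exact SimpleGraph.Iso.map (mv τ) _
  exact ⟨fun hp => hp.of_iso e, fun hp => hp.of_iso e.symm⟩

/-- the interior vertices of the tower with `k` layers -/
def Int (W V : Type) (n : ℕ) : ℕ → Type
  | 0 => V
  | k + 1 => W ⊕ Int W V n k ⊕ Fin n

/-- `k` layers `L` below the cap `C` -/
def tower {W V : Type} {n : ℕ} (L : SimpleGraph ((W ⊕ Fin n) ⊕ Fin n)) (C : SimpleGraph (V ⊕ Fin n)) :
    (k : ℕ) → SimpleGraph (Int W V n k ⊕ Fin n)
  | 0 => C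
  | k + 1 => stack L (tower L C k)

instance finInt (W V : Type) [Finite W] [Finite V] (n : ℕ) : ∀ k, Finite (Int W V n k)
  | 0 => inferInstanceAs (Finite V)
  | k + 1 => by
    have := finInt W V n k
    exact inferInstanceAs (Finite (W ⊕ Int W V n k ⊕ Fin n))

/-- the graph with `k` layers and caps on both sides -/
def capped {W V : Type} {n : ℕ} (L : SimpleGraph ((W ⊕ Fin n) ⊕ Fin n)) (C : SimpleGraph (V ⊕ Fin n))
    (k : ℕ) : SimpleGraph ((Int W V n k ⊕ V) ⊕ Fin n) :=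
  glue (tower L C k) C

theorem chrom_towers {W V : Type} {n : ℕ} {L : SimpleGraph ((W ⊕ Fin n) ⊕ Fin n)}
    (h : Symmetric L) (C : SimpleGraph (V ⊕ Fin n)) (i j : ℕ) (p : ℝ[X])
    (hp : IsChrom (capped L C (i + j)) p) : IsChrom (glue (tower L C i) (tower L C j)) p := by
  induction j generalizing i with
  | zero => exact hp
  | succ j ih =>
    have h1 := ih (i + 1) (by rwa [show i + 1 + j = i + (j + 1) from by omega])
    exact (chrom_move h (tower L C i) (tower L C j) p).1 h1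

end Pool.Agent.Q93.LF
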