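import Pool.Agent.Q93.LF.Cut
import Pool.Agent.Y406.SP.Small
import Pool.Agent.Y865.RF.Fin

/-!
Layered plane graphs: the statements for drawings.
-/

set_option autoImplicit false

namespace Pool.Agent.Q93.LF

open Polynomial Pool.Agent.H207R2.BL

lemma crossless {V : Type} {n : ℕ} {N : SimpleGraph (V ⊕ Fin n)} (h : DrawnInHalfPlane N) :
    Crossless N := by
  obtain ⟨f, γ, h1, h2, h3, h4, h5⟩ := h
  exact crossless_of_drawing N f γ h1 h2 h3 h4 h5

/-- one nonzero value makes all even members of the layered family positive -/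
theorem positive_of_ne {n : ℕ} {W V V' : Type} [Finite W] [Finite V] [Finite V']
    (L : SimpleGraph ((W ⊕ Fin n) ⊕ Fin n)) (C : SimpleGraph (V ⊕ Fin n)) (hL : Symmetric L)
    (hT : ∀ k, DrawnInHalfPlane (tower L C k)) (p : ℕ → ℝ[X])
    (hp : ∀ k, IsChrom (capped L C k) (p k)) (q : ℝ) (hq : 4 ≤ q)
    (M : SimpleGraph (V' ⊕ Fin n)) (hM : DrawnInHalfPlane M) (r : ℝ[X])
    (hr : IsChrom (glue (stack L C) M) r) (hne : r.eval q ≠ 0) (m : ℕ) :
    0 < (p (2 * (m + 1))).eval q := by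
  have hT' : ∀ k, Crossless (tower L C k) := fun k => crossless (hT k)
  have hcs := cs L C hL hT' p hp q hq
  refine lt_of_le_of_ne (hcs.nonneg (m + 1)) (fun h0 => hne ?_)
  have h2 : (p 2).eval q = 0 := hcs.zero (m + 1) h0.symm 2 (by norm_num)
  have h3 := cut (tower L C 1) M (hT' 1) (crossless hM) r (p 2)
    (chr (glue M M)) hr (chrom_towers hL C 1 1 _ (hp _)) (chr_spec _) q hq
  rw [h2, zero_mul] at h3
  exact pow_eq_zero_iff (two_ne_zero) |>.1 (le_antisymm h3.2 (sq_nonneg _))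

end Pool.Agent.Q93.LF
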